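import Pool.Agent.H58.SO.Basic
import Pool.Agent.H13.EQ.CYP

/-!
# Several orbits of vertices: the cyclic polymorphism of the template
-/

set_option autoImplicit false
set_option linter.unusedVariables false

namespace Pool.Agent.H74.SO

open Pool.Agent.H68.BP Pool.Agent.H58.SF Pool.Agent.H53.GC Pool.Agent.H53.NR Pool.Agent.H58.SO
open Pool.Agent.H13.EQ (majF majF_shift majF_not)
open Classical

section

variable {V X Θ : Type} {M : ℕ} [LinearOrder V] {σ : Sig}

/-- an operation which is invariant under the shift by `1` is invariant under all shifts -/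
theorem shift_all {Z W : Type} {p : ℕ} [NeZero p] (g : (ZMod p → Z) → W)
    (hg : ∀ θ, g (fun i => θ (i + 1)) = g θ) (θ : ZMod p → Z) (i : ZMod p) :
    g (fun j => θ (j + i)) = g θ := by
  have h : ∀ n : ℕ, g (fun j => θ (j + (n : ZMod p))) = g θ := by
    intro n
    induction n with
    | zero => simp
    | succ n ih =>
      rw [← ih, ← hg (fun j => θ (j + (n : ZMod p)))]
      congr 1
      funext j
      congr 1
      push_cast
      ring
  have := h i.val
  rwa [ZMod.natCast_val, ZMod.cast_id'] at this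

/-- the first step: the operation `G` -/
def yv {p : ℕ} (G : (ZMod p → Te X Θ) → Te X Θ) (z : ZMod p → Te X Θ) (i : ZMod p) : Te X Θ :=
  G (fun j => z (j + i))

/-- the second step: the operation `H` -/
def Yv {p : ℕ} (G H : (ZMod p → Te X Θ) → Te X Θ) (z : ZMod p → Te X Θ) (i : ZMod p) : Te X Θ :=
  H (fun j => yv G z (j + i))

theorem yv_shift {p : ℕ} (G : (ZMod p → Te X Θ) → Te X Θ) (z : ZMod p → Te X Θ) (i : ZMod p) :
    yv G (fun j => z (j + 1)) i = yv G z (i + 1) := by
  unfold yv
  congr 1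
  funext j
  change z (j + i + 1) = z (j + (i + 1))
  rw [add_assoc]

theorem Yv_shift {p : ℕ} (G H : (ZMod p → Te X Θ) → Te X Θ) (z : ZMod p → Te X Θ) (i : ZMod p) :
    Yv G H (fun j => z (j + 1)) i = Yv G H z (i + 1) := by
  unfold Yv
  congr 1
  funext j
  rw [yv_shift, add_assoc]

theorem yv_typ {p : ℕ} [NeZero p] {G : (ZMod p → Te X Θ) → Te X Θ} {g : (ZMod p → Θ) → Θ}
    (hGg : OnT G g) (hg : ∀ θ, g (fun i => θ (i + 1)) = g θ) (z : ZMod p → Te X Θ) (i i' : ZMod p) :
    (yv G z i).1 = (yv G z i').1 := by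
  have h : ∀ i, (yv G z i).1 = (g (fun j => (z j).1.1), g (fun j => (z j).1.2)) := by
    intro i
    unfold yv
    rw [hGg, shift_all g hg (fun j => (z j).1.1) i, shift_all g hg (fun j => (z j).1.2) i]
  rw [h, h]

theorem Yv_typ {B : Bs V X Θ M} {𝔸 : Str σ V} {D : Set Θ} {p : ℕ} [NeZero p]
    {G H : (ZMod p → Te X Θ) → Te X Θ} {g : (ZMod p → Θ) → Θ}
    (hGg : OnT G g) (hg : ∀ θ, g (fun i => θ (i + 1)) = g θ) (hH : PurT B 𝔸 D H)
    (z : ZMod p → Te X Θ) (i i' : ZMod p) : (Yv G H z i).1 = (yv G z i').1 := by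
  unfold Yv
  rw [hH.typ (fun j => yv G z (j + i)) 0 (fun j => yv_typ hGg hg z _ _)]
  exact yv_typ hGg hg z _ _

/-- the colours and the bit of an element of the template -/
noncomputable def val (d : (X × X) × Bool) (y : Te X Θ) : (X × X) × Bool := (y.2.getD none).getD d

theorem val_some (d : (X × X) × Bool) (y : Te X Θ) (t : (X × X) × Bool) (h : y.2 = some (some t)) :
    val d y = t := by
  unfold val
  rw [h]
  rfl

/-- the second component of the cyclic operation -/
noncomputable def u2 (B : Bs V X Θ M) {p : ℕ} [NeZero p] (w : (ZMod p → X) → X)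
    (d : (X × X) × Bool) (Y : ZMod p → Te X Θ) : Option (Option ((X × X) × Bool)) :=
  if ∀ i, (Y i).2 = none then none
  else if ∀ i, (Y i).2 = some none then some none
  else some (some ((w (fun i => (val d (Y i)).1.1), B.inv (w (fun i => B.inv (val d (Y i)).1.2))),
    majF (fun i => (val d (Y i)).2)))

theorem u2_shift (B : Bs V X Θ M) {p : ℕ} [NeZero p] (w : (ZMod p → X) → X)
    (hw : ∀ t, w (fun i => t (i + 1)) = w t) (d : (X × X) × Bool) (Y : ZMod p → Te X Θ) :
    u2 B w d (fun i => Y (i + 1)) = u2 B w d Y := by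
  unfold u2
  have h1 : (∀ i, (Y (i + 1)).2 = none) ↔ ∀ i, (Y i).2 = none :=
    ⟨fun h i => by have := h (i - 1); rwa [sub_add_cancel] at this, fun h i => h _⟩
  have h2 : (∀ i, (Y (i + 1)).2 = some none) ↔ ∀ i, (Y i).2 = some none :=
    ⟨fun h i => by have := h (i - 1); rwa [sub_add_cancel] at this, fun h i => h _⟩
  simp only [h1, h2]
  rw [hw (fun i => (val d (Y i)).1.1), hw (fun i => B.inv (val d (Y i)).1.2),
    majF_shift (fun i => (val d (Y i)).2)]

/-- families for operations on families with common equalities -/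
theorem fam_u {B : Bs V X Θ M} {𝔸 : Str σ V} {D : Set Θ} {p : ℕ} [NeZero p] (hodd : Odd p)
    {w : (ZMod p → X) → X} (hw : CycW B 𝔸 D p w) (d : (X × X) × Bool) (s : Option (Fin σ.m))
    (Y : ZMod p → Fin (arP σ M s) × Fin (arP σ M s) → Te X Θ) (hY : ∀ i, FamT B 𝔸 D s (Y i))
    (hty : ∀ i e, (Y i e).1 = (Y 0 e).1)
    (E : Fin (arP σ M s) → Fin (arP σ M s) → Prop)
    (hE : ∀ i a b, (Y i (a, b)).1.1 ∉ D → (Y i (a, b)).1.2 ∉ D →
      ((Y i (a, b)).2 = some none ↔ E a b)) :
    FamT B 𝔸 D s (fun e => ((Y 0 e).1, u2 B w d (fun i => Y i e))) := by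
  choose θ k T hF using hY
  have hθ : ∀ i a, θ i a = θ 0 a := by
    intro i a
    have h1 := (hF i).typ a a
    have h2 := (hF 0).typ a a
    rw [hty i, h2] at h1
    exact (congrArg Prod.fst h1).symm
  have hk : ∀ i a b, θ 0 a ∉ D → θ 0 b ∉ D → (k i a = k i b ↔ E a b) := by
    intro i a b ha hb
    rw [← hθ i a] at ha
    rw [← hθ i b] at hb
    rw [← (hF i).eq a b ha hb]
    refine hE i a b ?_ ?_
    · rw [(hF i).typ a b]; exact ha
    · rw [(hF i).typ a b]; exact hb
  have hnn : ∀ i a b, θ 0 a ∉ D → θ 0 b ∉ D → (Y i (a, b)).2 ≠ none := by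
    intro i a b ha hb h
    rcases ((hF i).star a b).1 h with h' | h'
    · rw [hθ] at h'; exact ha h'
    · rw [hθ] at h'; exact hb h'
  have hno : ∀ i a b, (θ 0 a ∈ D ∨ θ 0 b ∈ D) → (Y i (a, b)).2 = none := by
    intro i a b h
    refine ((hF i).star a b).2 ?_
    rw [hθ i a, hθ i b]
    exact h
  -- the value
  have hu : ∀ a b t, u2 B w d (fun i => Y i (a, b)) = some (some t) →
      θ 0 a ∉ D ∧ θ 0 b ∉ D ∧ ¬ E a b ∧ ∃ t' : ZMod p → (X × X) × Bool,
        (∀ i, (Y i (a, b)).2 = some (some (t' i))) ∧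
        t = ((w (fun i => (t' i).1.1), B.inv (w (fun i => B.inv (t' i).1.2))),
          majF (fun i => (t' i).2)) := by
    intro a b t ht
    unfold u2 at ht
    by_cases h1 : ∀ i, (Y i (a, b)).2 = none
    · rw [if_pos h1] at ht
      exact absurd ht (by simp)
    · rw [if_neg h1] at ht
      by_cases h2 : ∀ i, (Y i (a, b)).2 = some none
      · rw [if_pos h2] at ht
        exact absurd ht (by simp)
      · rw [if_neg h2] at ht
        have ha : θ 0 a ∉ D := fun h => h1 fun i => hno i a b (Or.inl h)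
        have hb : θ 0 b ∉ D := fun h => h1 fun i => hno i a b (Or.inr h)
        have hne : ¬ E a b := by
          intro h
          refine h2 fun i => ?_
          have ha' : θ i a ∉ D := by rw [hθ]; exact ha
          have hb' : θ i b ∉ D := by rw [hθ]; exact hb
          exact ((hF i).eq a b ha' hb').2 ((hk i a b ha hb).2 h)
        have hsome : ∀ i, ∃ t', (Y i (a, b)).2 = some (some t') := by
          intro i
          obtain ⟨o, ho⟩ := Option.ne_none_iff_exists'.1 (hnn i a b ha hb)
          cases o with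
          | none =>
            have ha' : θ i a ∉ D := by rw [hθ]; exact ha
            have hb' : θ i b ∉ D := by rw [hθ]; exact hb
            exact absurd ((hk i a b ha hb).1 (((hF i).eq a b ha' hb').1 ho)) hne
          | some t' => exact ⟨t', ho⟩
        choose t' ht' using hsome
        refine ⟨ha, hb, hne, t', ht', ?_⟩
        have hv : ∀ i, val d (Y i (a, b)) = t' i := fun i => val_some d _ _ (ht' i)
        simp only [hv] at ht
        exact (Option.some_injective _ (Option.some_injective _ ht)).symm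
  -- the labels
  let lab : ZMod p → ℕ → ℕ := fun i v =>
    if h : ∃ a, θ 0 a ∉ D ∧ k 0 a = v then k i (Classical.choose h) else 0
  have hlab : ∀ i a, θ 0 a ∉ D → lab i (k 0 a) = k i a := by
    intro i a ha
    have h : ∃ b, θ 0 b ∉ D ∧ k 0 b = k 0 a := ⟨a, ha, rfl⟩
    have h1 : lab i (k 0 a) = k i (Classical.choose h) := dif_pos h
    rw [h1]
    have h2 := Classical.choose_spec h
    exact (hk i _ _ h2.1 ha).2 ((hk 0 _ _ h2.1 ha).1 h2.2)
  let T' : ℕ → ℕ → Bool := fun v v' =>
    if (∃ a, θ 0 a ∉ D ∧ k 0 a = v) ∧ (∃ a, θ 0 a ∉ D ∧ k 0 a = v') then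
      majF (fun i => T i (lab i v) (lab i v'))
    else decide (v < v')
  have hT' : ∀ a b, θ 0 a ∉ D → θ 0 b ∉ D →
      T' (k 0 a) (k 0 b) = majF (fun i => T i (k i a) (k i b)) := by
    intro a b ha hb
    change (if _ then _ else _) = _
    rw [if_pos ⟨⟨a, ha, rfl⟩, ⟨b, hb, rfl⟩⟩]
    simp only [hlab _ a ha, hlab _ b hb]
  refine ⟨θ 0, k 0, T', ?_, ?_, ?_, ?_, ?_, ?_⟩
  · -- tour
    intro v v' hne
    by_cases h : (∃ a, θ 0 a ∉ D ∧ k 0 a = v) ∧ (∃ a, θ 0 a ∉ D ∧ k 0 a = v')
    · obtain ⟨⟨a, ha, rfl⟩, ⟨b, hb, rfl⟩⟩ := h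
      rw [hT' b a hb ha, hT' a b ha hb, ← majF_not hodd]
      congr 1
      funext i
      exact (hF i).tour _ _ (fun h => hne ((hk 0 _ _ ha hb).2 ((hk i _ _ ha hb).1 h)))
    · have h' : ¬ ((∃ a, θ 0 a ∉ D ∧ k 0 a = v') ∧ (∃ a, θ 0 a ∉ D ∧ k 0 a = v)) :=
        fun h' => h ⟨h'.2, h'.1⟩
      change (if _ then _ else _) = !(if _ then _ else _)
      rw [if_neg h, if_neg h', ← decide_not, decide_eq_decide, not_lt]
      exact ⟨fun h => h.le, fun h => lt_of_le_of_ne h (Ne.symm hne)⟩
  · -- typ
    intro a b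
    exact (hF 0).typ a b
  · -- star
    intro a b
    constructor
    · intro h
      by_contra h'
      rw [not_or] at h'
      change u2 B w d (fun i => Y i (a, b)) = none at h
      unfold u2 at h
      rw [if_neg (fun h1 => hnn 0 a b h'.1 h'.2 (h1 0))] at h
      split_ifs at h
    · intro h
      change u2 B w d (fun i => Y i (a, b)) = none
      unfold u2
      rw [if_pos (fun i => hno i a b h)]
  · -- eq
    intro a b ha hb
    change u2 B w d (fun i => Y i (a, b)) = some none ↔ _
    unfold u2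
    rw [if_neg (fun h1 => hnn 0 a b ha hb (h1 0)), hk 0 a b ha hb]
    by_cases h2 : ∀ i, (Y i (a, b)).2 = some none
    · rw [if_pos h2]
      refine ⟨fun _ => ?_, fun _ => rfl⟩
      exact (hk 0 a b ha hb).1 (((hF 0).eq a b ha hb).1 (h2 0))
    · rw [if_neg h2]
      refine ⟨fun h => absurd h (by simp), fun h => absurd ?_ h2⟩
      intro i
      have ha' : θ i a ∉ D := by rw [hθ]; exact ha
      have hb' : θ i b ∉ D := by rw [hθ]; exact hb
      exact ((hF i).eq a b ha' hb').2 ((hk i a b ha hb).2 h)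
  · -- bit
    intro a b t ht
    obtain ⟨ha, hb, _, t', ht', rfl⟩ := hu a b t ht
    change majF (fun i => (t' i).2) = _
    rw [hT' a b ha hb]
    congr 1
    funext i
    exact (hF i).bit a b _ (ht' i)
  · -- fam
    intro rk hrk
    have hex : ∀ i, ∃ x : Fin (arP σ M s) → V, relP 𝔸 M s x ∧ (∀ a, B.vt (x a) = θ i a) ∧
        (∀ a b, θ i a ∉ D → θ i b ∉ D → (x a = x b ↔ k i a = k i b)) ∧
        ∀ a b t, (Y i (a, b)).2 = some (some t) →
          B.c (x a) (x b) = if rk a < rk b then t.1.1 else t.1.2 := by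
      intro i
      refine (hF i).fam rk ?_
      intro a b ha hb
      rw [hθ] at ha hb
      rw [hrk a b ha hb, hk 0 a b ha hb, hk i a b ha hb]
    choose x hxR hxt hxk hxc using hex
    have hvt : ∀ i a, B.vt (x i a) = B.vt (x 0 a) := fun i a => by rw [hxt, hxt, hθ]
    obtain ⟨y, hyR, hyt, hyc⟩ := hw.rel s x hxR hvt
      (by
        intro i a b ha hb
        rw [hxt] at ha hb
        rw [hxk 0 a b ha hb, hk 0 a b ha hb, hxk i a b (by rw [hθ]; exact ha)
          (by rw [hθ]; exact hb), hk i a b ha hb])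
      rk
      (by
        intro a b ha hb
        rw [hxt] at ha hb
        rw [hrk a b ha hb, hxk 0 a b ha hb])
    refine ⟨y, hyR, fun a => by rw [hyt, hxt], ?_, ?_⟩
    · intro a b ha hb
      rw [(hyc a b (by rw [hxt]; exact ha) (by rw [hxt]; exact hb)).1]
      exact hxk 0 a b ha hb
    · intro a b t ht
      obtain ⟨ha, hb, hne, t', ht', rfl⟩ := hu a b t ht
      have ha' : B.vt (x 0 a) ∉ D := by rw [hxt]; exact ha
      have hb' : B.vt (x 0 b) ∉ D := by rw [hxt]; exact hb
      have hrkne : rk a ≠ rk b := fun h => hne ((hk 0 a b ha hb).1 ((hrk a b ha hb).1 h))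
      rcases lt_or_gt_of_ne hrkne with hlt | hgt
      · rw [if_pos hlt, (hyc a b ha' hb').2 hlt]
        change w _ = w _
        congr 1
        funext i
        rw [hxc i a b _ (ht' i), if_pos hlt]
      · have hnlt : ¬ rk a < rk b := not_lt.2 (le_of_lt hgt)
        rw [if_neg hnlt, B.sym (y b) (y a), (hyc b a hb' ha').2 hgt]
        change B.inv (w _) = B.inv (w _)
        congr 2
        funext i
        rw [B.sym (x i a) (x i b), hxc i a b _ (ht' i), if_neg hnlt]

end

/-- (CYT) the cyclic polymorphism. -/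
theorem pf_CYT : T_CYT := by
  intro σ V X Θ _ M B 𝔸 D p w hp h2 hw G g hG hGg hg H hH
  have : NeZero p := ⟨hp.ne_zero⟩
  have hodd : Odd p := hp.odd_of_ne_two (by omega)
  have v0 : V := B.ne.some
  let d : (X × X) × Bool := ((B.c v0 v0, B.c v0 v0), false)
  refine ⟨fun z => ((Yv G H z 0).1, u2 B w d (Yv G H z)), ?_, ?_⟩
  · intro s q hq
    have hy : ∀ i, FamT B 𝔸 D s (fun e => yv G (fun j => q j e) i) :=
      fun i => hG s (fun j => q (j + i)) (fun j => hq (j + i))
    have hY : ∀ i, FamT B 𝔸 D s (fun e => Yv G H (fun j => q j e) i) :=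
      fun i => hH.rel s (fun j e => yv G (fun j => q j e) (j + i)) (fun j => hy (j + i))
        (fun j j' e => yv_typ hGg hg _ _ _)
    refine fam_u hodd hw d s (fun i e => Yv G H (fun j => q j e) i) hY ?_
      (fun a b => ∀ j, (yv G (fun j => q j (a, b)) j).2 = some none) ?_
    · intro i e
      rw [Yv_typ hGg hg hH _ i 0, Yv_typ hGg hg hH _ 0 0]
    · intro i a b ha hb
      have hty : ∀ j, (yv G (fun j => q j (a, b)) j).1 = (Yv G H (fun j => q j (a, b)) i).1 :=
        fun j => (Yv_typ hGg hg hH _ i j).symm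
      have hker := (hH.ker (fun j => yv G (fun j => q j (a, b)) (j + i))
        (fun j j' => yv_typ hGg hg _ _ _)
        (fun j => by rw [hty]; exact ha) (fun j => by rw [hty]; exact hb)
        (fun j => by
          obtain ⟨θ, k, T, hF⟩ := hy (j + i)
          intro h
          have h1 := hF.typ a b
          rcases (hF.star a b).1 h with h' | h'
          · apply ha
            rw [← hty (j + i), h1]
            exact h'
          · apply hb
            rw [← hty (j + i), h1]
            exact h')).2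
      change (H (fun j => yv G (fun j => q j (a, b)) (j + i))).2 = some none ↔ _
      rw [hker]
      constructor
      · intro h j
        have := h (j - i)
        rwa [sub_add_cancel] at this
      · intro h j
        exact h _
  · intro z
    refine Prod.ext ?_ ?_
    · change (Yv G H (fun j => z (j + 1)) 0).1 = (Yv G H z 0).1
      rw [Yv_shift, Yv_typ hGg hg hH z _ 0, Yv_typ hGg hg hH z _ 0]
    · change u2 B w d (Yv G H (fun j => z (j + 1))) = u2 B w d (Yv G H z)
      rw [← u2_shift B w hw.cyc d (Yv G H z)]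
      congr 1
      funext i
      exact Yv_shift G H z i

end Pool.Agent.H74.SO
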